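import Pool.Agent.Mg.F0d7d6c.Ga48a7f

namespace Pool.Agent.Results.MP_0d7d6c_co.SuspensionLimit

open Filter Topology Pool.Agent.MP_0d7d6c_co

/-- For every finite simple graph `G`, the realizable proportion of the simplex for the `n`-fold
suspension of `G` tends to one. -/
theorem result (N : ℕ) (G : SimpleGraph (Fin N)) :
    Tendsto (fun n : ℕ => realizableFraction (iterSuspension G n)) atTop (𝓝 1) :=
  main G

end Pool.Agent.Results.MP_0d7d6c_co.SuspensionLimit
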